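import Mathlib
import Pool.Agent.Lib.MP_008583_gt.Top

/-!
# Resolvability of topological groups whose dispersion character is regular

A topological group with a subgroup whose dispersion character is an uncountable regular cardinal
which is not weakly compact can be partitioned into countably many dense subsets.
-/

universe u

open Cardinal Set

namespace Pool.Agent.Results.MP_008583_gt.RegularDispersion

/-- The dispersion character of a topological space: the least cardinality of a nonempty open
set. -/
noncomputable def dispersionCharacter (X : Type u) [TopologicalSpace X] : Cardinal.{u} :=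
  sInf {c | ∃ U : Set X, IsOpen U ∧ U.Nonempty ∧ #U = c}

/-- The cardinal `κ` is weakly compact: it is uncountable, a strong limit, and every symmetric
colouring with two colours of the pairs of elements of a set of cardinality `κ` has a homogeneous
set of cardinality `κ`. -/
def WeaklyCompact (κ : Cardinal.{u}) : Prop :=
  ℵ₀ < κ ∧ (∀ μ < κ, 2 ^ μ < κ) ∧
    ∀ (α : Type u) (c : α → α → Bool), #α = κ → (∀ a b, c a b = c b a) →
      ∃ (H : Set α) (i : Bool), #H = κ ∧ ∀ a ∈ H, ∀ b ∈ H, a ≠ b → c a b = i

/-- Let `G` be a topological group with a subgroup `K` whose dispersion character is regular,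
uncountable and not weakly compact. Then `G` can be partitioned into countably infinitely many
dense subsets. -/
theorem result (G : Type u) [Group G] [TopologicalSpace G] [IsTopologicalGroup G]
    (K : Subgroup G) (hreg : (dispersionCharacter K).IsRegular)
    (hunc : ℵ₀ < dispersionCharacter K) (hwc : ¬ WeaklyCompact (dispersionCharacter K)) :
    ∃ f : G → ℕ, ∀ n, Dense (f ⁻¹' {n}) := by
  refine Pool.Agent.Resolv.resolvable_of_subgroup G K hreg hunc ?_
  change (∃ μ < dispersionCharacter K, dispersionCharacter K ≤ 2 ^ μ) ∨
    ¬ Pool.Agent.Resolv.Arrow (dispersionCharacter K)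
  by_contra hcon
  push Not at hcon
  exact hwc ⟨hunc, hcon.1, hcon.2⟩

end Pool.Agent.Results.MP_008583_gt.RegularDispersion
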