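import Pool.Agent.Lib.MP_008583_gt.Irr5

/-!
# Resolvability of non-discrete topological groups: full positive answer to Q1

A Hausdorff topological group with no countable open subgroup of exponent 2 can be split into two
disjoint dense subsets.
-/

universe u

namespace Pool.Agent.Results.MP_008583_gt.Resolvable

/-- Let `G` be a Hausdorff topological group no open subgroup of which is both countable and of
exponent 2 (in particular `G` is not discrete). Then `G` is the union of two disjoint dense
subsets. -/
theorem result (G : Type u) [Group G] [TopologicalSpace G] [IsTopologicalGroup G] [T2Space G]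
    (hC : ¬ ∃ H : Subgroup G, IsOpen (H : Set G) ∧ (H : Set G).Countable ∧ ∀ x ∈ H, x ^ 2 = 1) :
    ∃ A B : Set G, Dense A ∧ Dense B ∧ Disjoint A B ∧ A ∪ B = Set.univ := by
  refine Pool.Agent.Irr008583.Q1 (fun H hH hcon => hC ⟨H, hH, ?_, hcon.2⟩)
  have := hcon.1
  exact Set.to_countable _

end Pool.Agent.Results.MP_008583_gt.Resolvable
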